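import Pool.Agent.Lib.P901b45w.Final

/-!
Frank's question for the 2-polymatroids obtained from those of small excess, from those with
cyclic symmetry in many rows and from those with a nearly even point, a near miss, a palindromic
chain, a good slice, a high point or a peak.
-/

set_option autoImplicit false

namespace Pool.Agent.Results.MP_901b45_co.DominanceWidth

open Pool.Agent.P901b45w

/-- Let `Good` be the smallest class of functions `q` on the subsets of finite sets `I` that
contains all `q` with `q S ≤ |S| + 3` for all `S`, all `q` with a nearly even
point (`NearEven`: an integral `u` with `u` and `2 - u` in the polytope of `q` and with at most two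
entries `1`), all `q` with a near miss (`NearMiss`: an integral `u` in the polytope of `q` with
`u(I) = |I|`, any two elements of `I` separated by a set `X` with `u(X) = q X`, such that
`(2 - u)(S) > q S` for exactly one set `S`), all `q` with a palindromic chain (`PalinChain`: an order
of `I` such that `q P - |P| = q (I \ P) - |I \ P|` for all its beginnings `P`), all `q` for
which `I` is a disjoint union of finitely many rows, at most four of them of odd length, such that
the value of `q` on a union of intervals of the rows, one (maybe empty) interval of each row, depends
only on the lengths of these intervals (`ManyRows`; it holds if `q` is invariant under a permutation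
whose cycles have pairwise coprime lengths, at most four of them odd), all `q` with a good slice
(`HasSlice`: for some `B ⊆ I` and some `s` there are integral points `y` of the base polytope of
`q` with `y(B) = s`, and `2 - y` is in the polytope of `q` for all of them), all `q` with a high
point (`HighPoint`: an integral `u` with `u` and `2 - u` in the polytope of `q` and with more entries
`2` than `q S - |S|` for every `S` with `q S - |S| < q (I \ S) - |I \ S|`), all `q` with a peak
(`Peak`: an integral `u` with `u` and `2 - u` in the polytope of `q` such that, for every `S` that
contains all its entries `2` and no entry `0`, the excess of `S` or of `I \ S` is at most the number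
of its entries `2`) and all `q` such that for some `t ≥ 1` no integral `u` with `u` and `2 - u` in the
polytope of `q` has exactly `t + 1` entries `2`, and `t = 1` or
`q S ≥ |S| + min (|S|, |I \ S|, t)` for all `S` (`Few`), and that contains `q` if
* `q S = |S|` for a nonempty proper subset `S` of `I`, and the restriction of `q` to `S` and the
  contraction of `S` are in the class, or
* there are disjoint nonempty `T, R ⊆ I` of the same size which form a free pair (`FreePair`:
  `|S| + 2 |T| ≤ q (T ∪ S)` for all `S ⊆ J = I \ (T ∪ R)`, and `(2 - y)(S) + 2 |R| ≤ q (R ∪ S)` for
  all these `S` and all integral `y` on `J` such that `y` and `2 - y` are in the polytope of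
  `q (T ∪ S) - q T`), and the function `q (T ∪ S) - q T` on the subsets of `J` is in the class.
Let `f` be an integer 2-polymatroid on `n` elements whose polytope contains the all-ones vector. If
its truncation `trunc f`, that is `min (f S) n`, is in the class, then the polytope of `f` has a
vertex `v` such that `2 - v` is in it. -/
theorem result :
    ∀ (n : ℕ) (f : Finset (Fin n) → ℤ),
      f ∅ = 0 →
      Monotone f →
      (∀ A B : Finset (Fin n), f (A ∪ B) + f (A ∩ B) ≤ f A + f B) →
      (∀ e : Fin n, f {e} ≤ 2) →
      (∀ A : Finset (Fin n), (A.card : ℤ) ≤ f A) →
      Good Finset.univ (trunc f) →
      ∃ v ∈ Set.extremePoints ℝ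
          {x : Fin n → ℝ | (∀ i, 0 ≤ x i) ∧
            ∀ A : Finset (Fin n), ∑ i ∈ A, x i ≤ (f A : ℝ)},
        (∀ i, 0 ≤ 2 - v i) ∧
          ∀ A : Finset (Fin n), ∑ i ∈ A, (2 - v i) ≤ (f A : ℝ) :=
  fun n f h0 hm hs h2 h1 hc => Pool.Agent.P901b45w.final n f h0 hm hs h2 h1 hc

end Pool.Agent.Results.MP_901b45_co.DominanceWidth
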