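import Pool.Agent.Lib.P901b45c.Init
import Pool.Agent.Lib.P901b45c.Vertex

/-
Complementary vertices for sums of rank functions of strongly base orderable matroids.
-/

namespace Pool.Agent.Results.MP_901b45_co.OrderableFamily

open Pool.Agent.Lib.P901b45 Pool.Agent.Lib.P901b45c

/-- Let `M i` (`i ∈ ι`, `ι` finite) be strongly base orderable matroids on a finite set, let
`f = famSum M` be the sum of their rank functions, and suppose that `f {e} ≤ 2` for every
element `e` and that the all-ones vector lies in the polytope `P(f)`. Then `P(f)` has a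
vertex `v` such that `2 - v` lies in `P(f)`. -/
theorem result {α ι : Type*} [Fintype α] [Fintype ι] (M : ι → Matroid α)
    (hM : ∀ i, StronglyBaseOrderable (M i)) (h2 : ∀ e, famSum M {e} ≤ 2)
    (hone : (fun _ : α => (1 : ℝ)) ∈ Poly (famSum M)) :
    ∃ v ∈ Set.extremePoints ℝ (Poly (famSum M)), (fun e => 2 - v e) ∈ Poly (famSum M) := by
  classical
  apply exists_vertex M hM h2
  apply exists_initial
  intro S
  have h : ∑ e ∈ S, (1 : ℝ) ≤ (famSum M S : ℝ) := hone.2 S
  rw [Finset.sum_const, nsmul_eq_mul, mul_one] at h
  exact_mod_cast h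

end Pool.Agent.Results.MP_901b45_co.OrderableFamily
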