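import Pool.Agent.Lib.P901b45.Part

/-
Complementary vertices for the sum of the rank function of a direct sum of
uniform matroids and the rank function of an arbitrary matroid.
-/

namespace Pool.Agent.Results.MP_901b45_co.PartitionSum

open Pool.Agent.Lib.P901b45

/-- Let `c` be a map from a finite set `α` to a finite set `ι`, let `k i` be natural
numbers, and let `f` be the sum of the rank function
`S ↦ ∑ i, min |S ∩ c⁻¹(i)| (k i)` of the direct sum of the uniform matroids of rank
`k i` on the fibres of `c` and of the rank function of an arbitrary matroid `M` on `α`.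
If the all-ones vector lies in the polytope `P(f)`, then `P(f)` has a vertex `v` such
that `2 - v` is also a vertex of `P(f)`. -/
theorem result {α ι : Type*} [Fintype α] [Fintype ι] [DecidableEq ι] (c : α → ι) (k : ι → ℕ)
    (M : Matroid α) (hE : M.E = Set.univ)
    (hone : (fun _ : α => (1 : ℝ)) ∈ Poly (Part.partSum c k M)) :
    ∃ v ∈ Set.extremePoints ℝ (Poly (Part.partSum c k M)),
      (fun e => 2 - v e) ∈ Set.extremePoints ℝ (Poly (Part.partSum c k M)) := by
  classical
  have hcard : ∀ S : Finset α, S.card ≤ Part.partSum c k M S := by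
    intro S
    have h : ∑ e ∈ S, (1 : ℝ) ≤ (Part.partSum c k M S : ℝ) := hone.2 S
    rw [Finset.sum_const, nsmul_eq_mul, mul_one] at h
    exact_mod_cast h
  obtain ⟨S, T, h⟩ := Part.exists_maxPair hcard
  refine ⟨Part.vx S T, Part.extreme hE h, ?_⟩
  rw [Part.two_sub_vx]
  exact Part.extreme hE h.symm

end Pool.Agent.Results.MP_901b45_co.PartitionSum
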