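import Pool.Agent.Lib.P901b45.Quot

/-
Complementary vertices for the sum of the rank functions of a matroid and of a
quotient of it.
-/

namespace Pool.Agent.Results.MP_901b45_co.QuotientSum

open Pool.Agent.Lib.P901b45

/-- Let `M` and `N` be matroids on a finite set `α` such that `N` is a quotient of `M`
(the closure of every set in `M` is contained in its closure in `N`; this forces the
ground set of `N` to be all of `α` too), and let `f` be the sum of their rank functions. If the all-ones vector lies in the polytope `P(f)`, then
`P(f)` has a vertex `v` such that `2 - v` is also a vertex of `P(f)`. -/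
theorem result {α : Type*} [Fintype α] (M N : Matroid α) (hM : M.E = Set.univ)
    (hq : ∀ X : Set α, M.closure X ⊆ N.closure X)
    (hone : (fun _ : α => (1 : ℝ)) ∈ Poly (rankSum M N)) :
    ∃ v ∈ Set.extremePoints ℝ (Poly (rankSum M N)),
      (fun e => 2 - v e) ∈ Set.extremePoints ℝ (Poly (rankSum M N)) := by
  classical
  have hcard : ∀ S : Finset α, S.card ≤ rankSum M N S := by
    intro S
    have h : ∑ e ∈ S, (1 : ℝ) ≤ (rankSum M N S : ℝ) := hone.2 S
    rw [Finset.sum_const, nsmul_eq_mul, mul_one] at h
    exact_mod_cast h
  obtain ⟨T, O, J, h, hmin⟩ := Quot.exists_min (Quot.exists_adm (Quot.mono hM hq) hcard)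
  refine ⟨Quot.vx T O, Quot.extreme h fun o ho => Quot.spanned h hmin ho, ?_⟩
  rw [Quot.two_sub_vx h]
  exact Quot.extreme h.symm fun o ho =>
    Quot.spanned h.symm (fun T' O' J' h' => hmin J' O' T' h'.symm) ho

end Pool.Agent.Results.MP_901b45_co.QuotientSum
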